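import Pool.Agent.H36.FU.NumUB

set_option autoImplicit false

/-!
# Part A of `numU` and `numU` itself (project FU of helper55)
-/

namespace Pool.Agent.H36.FU

open Pool.Agent.W608.PR Pool.Agent.H55 Pool.Agent.H55.FU

theorem pow8 {E : ℕ} (hE : 1 ≤ E) : 8 * ((E + 1) * 2 ^ (E + 1)) ≤ 64 ^ E := by
  induction E, hE using Nat.le_induction with
  | base => norm_num
  | succ E hE ih =>
    calc 8 * ((E + 1 + 1) * 2 ^ (E + 1 + 1)) ≤ 8 * ((2 * (E + 1)) * 2 ^ (E + 1 + 1)) :=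
          Nat.mul_le_mul_left _ (Nat.mul_le_mul_right _ (by omega))
      _ = 4 * (8 * ((E + 1) * 2 ^ (E + 1))) := by ring
      _ ≤ 4 * 64 ^ E := Nat.mul_le_mul_left _ ih
      _ ≤ 64 * 64 ^ E := Nat.mul_le_mul_right _ (by norm_num)
      _ = 64 ^ (E + 1) := by ring

theorem pow9 {E : ℕ} (hE : 1 ≤ E) : 4 * (9 ^ (E + 2) * 2 ^ (E + 1)) ≤ 192 * 64 ^ E := by
  induction E, hE using Nat.le_induction with
  | base => norm_num
  | succ E hE ih =>
    calc 4 * (9 ^ (E + 1 + 2) * 2 ^ (E + 1 + 1)) = 18 * (4 * (9 ^ (E + 2) * 2 ^ (E + 1))) := by ring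
      _ ≤ 18 * (192 * 64 ^ E) := Nat.mul_le_mul_left _ ih
      _ ≤ 64 * (192 * 64 ^ E) := Nat.mul_le_mul_right _ (by norm_num)
      _ = 192 * 64 ^ (E + 1) := by ring

theorem succ_pow_le (n : ℕ) : (n + 1) ^ n ≤ 3 * n ^ n := by
  rcases Nat.eq_zero_or_pos n with h | h
  · subst h
    norm_num
  · have hn : (0 : ℝ) < n := by exact_mod_cast h
    have h1 : (1 + 1 / (n : ℝ)) ^ n ≤ 3 := by
      have h2 : 1 + 1 / (n : ℝ) ≤ Real.exp (1 / n) := by
        have := Real.add_one_le_exp (1 / (n : ℝ))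
        linarith
      calc (1 + 1 / (n : ℝ)) ^ n ≤ (Real.exp (1 / n)) ^ n := pow_le_pow_left₀ (by positivity) h2 n
        _ = Real.exp 1 := by
            rw [← Real.exp_nat_mul]
            congr 1
            field_simp
        _ ≤ 3 := by
            have := Real.exp_one_lt_d9
            linarith
    have h3 : ((n : ℝ) + 1) ^ n ≤ 3 * (n : ℝ) ^ n := by
      have h4 : ((n : ℝ) + 1) = n * (1 + 1 / (n : ℝ)) := by
        field_simp
      rw [h4, mul_pow, mul_comm]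
      exact mul_le_mul_of_nonneg_right h1 (by positivity)
    exact_mod_cast h3

theorem pow_self_le (n : ℕ) : n ^ n ≤ 3 ^ n * n.factorial := by
  induction n with
  | zero => norm_num
  | succ n ih =>
    calc (n + 1) ^ (n + 1) = (n + 1) * (n + 1) ^ n := by ring
      _ ≤ (n + 1) * (3 * n ^ n) := Nat.mul_le_mul_left _ (succ_pow_le n)
      _ ≤ (n + 1) * (3 * (3 ^ n * n.factorial)) :=
          Nat.mul_le_mul_left _ (Nat.mul_le_mul_left _ ih)
      _ = 3 ^ (n + 1) * (n + 1).factorial := by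
          rw [Nat.factorial_succ]
          ring

theorem dmL {E m : ℕ} (hE : 1 ≤ E) (hEm : E + 1 ≤ m) :
    dm E (2 * (E + 1) * m + m) ≤ 9 ^ (E + 2) * (m * m ^ (E + 1)) := by
  refine le_of_mul_le_mul_left (?_ : (E + 2).factorial * _ ≤ (E + 2).factorial * _)
    (Nat.factorial_pos _)
  unfold dm
  rw [← Nat.descFactorial_eq_factorial_mul_choose]
  refine (Nat.descFactorial_le_pow _ _).trans ?_
  have h1 : 2 * (E + 1) * m + m + E + 2 ≤ (E + 2) * (3 * m) := by nlinarith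
  calc (2 * (E + 1) * m + m + E + 2) ^ (E + 2) ≤ ((E + 2) * (3 * m)) ^ (E + 2) :=
        Nat.pow_le_pow_left h1 _
    _ = (E + 2) ^ (E + 2) * (3 * m) ^ (E + 2) := mul_pow _ _ _
    _ ≤ (3 ^ (E + 2) * (E + 2).factorial) * (3 * m) ^ (E + 2) :=
        Nat.mul_le_mul_right _ (pow_self_le _)
    _ = (E + 2).factorial * ((3 * 3) ^ (E + 2) * (m * m ^ (E + 1))) := by
        rw [mul_pow, mul_pow]
        ring
    _ = _ := by norm_num

theorem fact_Sz {E m : ℕ} (hEm : E + 1 ≤ m) :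
    (E + 2).factorial * Sz E m ≤ 2 * 2 ^ (E + 1) * (m * m ^ (E + 1)) := by
  unfold Sz
  rw [← Nat.descFactorial_eq_factorial_mul_choose]
  calc (m + E + 1).descFactorial (E + 2) ≤ (m + E + 1) ^ (E + 2) := Nat.descFactorial_le_pow _ _
    _ ≤ (2 * m) ^ (E + 2) := Nat.pow_le_pow_left (by omega) _
    _ = 2 * 2 ^ (E + 1) * (m * m ^ (E + 1)) := by
        rw [mul_pow]
        ring

theorem partA1 {E m : ℕ} (hE : 1 ≤ E) (hm : 1 ≤ m) :
    2 * FE.Kc E m ≤ Nn E (2 * (E + 1) * m) := by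
  have hK := FE.Kc_le hE hm
  have h1 := Nn_ge_pow E (2 * (E + 1) * m)
  refine le_of_mul_le_mul_left (?_ : (E + 1).factorial * _ ≤ (E + 1).factorial * _)
    (Nat.factorial_pos _)
  refine le_trans ?_ h1
  have h2 : (E + 1).factorial ≤ (E + 1) ^ (E + 1) := Nat.factorial_le_pow (E + 1)
  have h3 : 2 * E ≤ 2 ^ (E + 1) := by
    have : E < 2 ^ E := Nat.lt_two_pow_self
    rw [pow_succ]
    omega
  calc (E + 1).factorial * (2 * FE.Kc E m) ≤ (E + 1) ^ (E + 1) * (2 * (E * m ^ (E + 1))) :=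
        Nat.mul_le_mul h2 (Nat.mul_le_mul_left _ hK)
    _ = (E + 1) ^ (E + 1) * m ^ (E + 1) * (2 * E) := by ring
    _ ≤ (E + 1) ^ (E + 1) * m ^ (E + 1) * 2 ^ (E + 1) := Nat.mul_le_mul_left _ h3
    _ = (2 * (E + 1) * m) ^ (E + 1) := by
        rw [mul_pow, mul_pow]
        ring
    _ ≤ (2 * (E + 1) * m + 1) ^ (E + 1) := Nat.pow_le_pow_left (by omega) _

theorem partA2 {E m d : ℕ} (hE : 1 ≤ E) (hm : 2 ≤ m) (hEm : E + 1 ≤ m)
    (hd : 64 ^ E * m ^ (2 * E + 2) ≤ d ^ E) :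
    m * (Sz E m * Qg E m (FE.Kc E m) (2 * (E + 1) * m + m) d) < dm E d := by
  have hd2 := d_ge64 hE (by omega) hd
  have hm2 : m * 2 ≤ m ^ 2 := by nlinarith
  have hU8 := pow8 hE
  have hU9 := pow9 hE
  have hL := dmL hE hEm
  have hS := fact_Sz (E := E) (m := m) hEm
  have hR : Rg E m (FE.Kc E m) ≤ (E + 1) * m ^ (E + 1) := FE.Rc_le hE (by omega)
  have h1 : (d + 1) ^ (E + 2) ≤ (E + 2).factorial * dm E d := Nn_ge_pow (E + 1) d
  have hT : 64 ^ E * (m ^ (E + 1) * m ^ (E + 1)) ≤ d ^ E := by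
    rw [← pow_add, show E + 1 + (E + 1) = 2 * E + 2 by ring]
    exact hd
  unfold Qg
  set G := (E + 2).factorial with hG
  set U := 64 ^ E
  set W := 2 ^ (E + 1)
  set P := m ^ (E + 1) with hP
  set N9 := 9 ^ (E + 2)
  set R := Rg E m (FE.Kc E m)
  set S := Sz E m
  set DL := dm E (2 * (E + 1) * m + m)
  have h2 : G * (m * (S * (DL + d * R))) ≤ d ^ (E + 2) := by
    calc G * (m * (S * (DL + d * R))) = m * ((G * S) * (DL + d * R)) := by ring
      _ ≤ m * ((2 * W * (m * P)) * (N9 * (m * P) + d * ((E + 1) * P))) :=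
          Nat.mul_le_mul_left _ (Nat.mul_le_mul hS (Nat.add_le_add hL (Nat.mul_le_mul_left _ hR)))
      _ = (2 * (N9 * W)) * m * (m ^ 2 * (P * P)) + 2 * ((E + 1) * W) * d * (m ^ 2 * (P * P)) := by
          ring
      _ ≤ (96 * U) * m * (m ^ 2 * (P * P)) + U * d * (m ^ 2 * (P * P)) := by
          refine Nat.add_le_add (Nat.mul_le_mul_right _ (Nat.mul_le_mul_right _ (by omega)))
            (Nat.mul_le_mul_right _ (Nat.mul_le_mul_right _ (by omega)))
      _ = U * (96 * m) * (m ^ 2 * (P * P)) + U * d * (m ^ 2 * (P * P)) := by ring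
      _ ≤ U * d * (m ^ 2 * (P * P)) + U * d * (m ^ 2 * (P * P)) := by
          refine Nat.add_le_add_right (Nat.mul_le_mul_right _ (Nat.mul_le_mul_left _ (by omega))) _
      _ = (2 * m ^ 2) * (U * (P * P)) * d := by ring
      _ ≤ d * d ^ E * d := Nat.mul_le_mul_right _ (Nat.mul_le_mul (by omega) hT)
      _ = d ^ (E + 2) := by ring
  have h3 : d ^ (E + 2) < (d + 1) ^ (E + 2) := Nat.pow_lt_pow_left (by omega) (by omega)
  exact lt_of_mul_lt_mul_left ((h2.trans_lt h3).trans_le h1) (Nat.zero_le _)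

theorem partA3 {E m d : ℕ} (hE : 1 ≤ E) (hm : 2 ≤ m) (hEm : E + 1 ≤ m)
    (hd : 64 ^ E * m ^ (2 * E + 2) ≤ d ^ E) :
    Qg E m (FE.Kc E m) (2 * (E + 1) * m + m) d * sz E m + FE.Kc E m +
      Xg E m (cA E m) (cB E m) (2 * (E + 1) * m + m) d ≤ Nn E d := by
  have hd2 := d_ge64 hE (by omega) hd
  have hm2 : m * 2 ≤ m ^ 2 := by nlinarith
  have hU1 := pow16 hE
  have hU2 := pow7 hE
  have hU8 := pow8 hE
  have hU9 := pow9 hE
  have hU3 : 64 ≤ 64 ^ E := by
    calc 64 = 64 ^ 1 := (pow_one _).symm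
      _ ≤ 64 ^ E := Nat.pow_le_pow_right (by norm_num) hE
  have hFs := fact_sz (E := E) (m := m) (by omega)
  have hNL := fact_Nn hE hEm
  have haa := aa_le hE (m := m) (by omega)
  have hSz := Sz_le_pow E m
  have hK := FE.Kc_le hE (m := m) (by omega)
  have hR : Rg E m (FE.Kc E m) ≤ (E + 1) * m ^ (E + 1) := FE.Rc_le hE (by omega)
  have hL := dmL hE hEm
  have hF : (E + 1).factorial ≤ m ^ (E + 1) :=
    (Nat.factorial_le_pow (E + 1)).trans (Nat.pow_le_pow_left hEm _)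
  have hmE : m * m ^ E = m ^ (E + 1) := by ring
  have hmE2 : m ^ (E + 2) = m * m ^ (E + 1) := by ring
  have hmE1 : 1 ≤ m ^ E := Nat.one_le_pow _ _ (by omega)
  have hcB : cB E m = sz E m * Sz E m := by
    unfold cB
    rw [aa_succ (by omega)]
  have hNd := Nn_ge_pow E d
  have hT : 64 ^ E * (m ^ (E + 1) * m ^ (E + 1)) ≤ d ^ E := by
    rw [← pow_add, show E + 1 + (E + 1) = 2 * E + 2 by ring]
    exact hd
  rw [hmE2] at hSz
  unfold Qg Xg Yg cA
  rw [hcB]
  set F := (E + 1).factorial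
  set U := 64 ^ E
  set W := 2 ^ (E + 1)
  set W3 := 3 ^ (E + 1)
  set N9 := 9 ^ (E + 2)
  set P := m ^ (E + 1) with hP
  set Q := m ^ E
  set s := sz E m
  set K := FE.Kc E m
  set R := Rg E m K
  set a := aa E m
  set S := Sz E m
  set NL := Nn E (2 * (E + 1) * m + m)
  set DL := dm E (2 * (E + 1) * m + m)
  set V := d * (U * (P * P)) with hV
  have hdm : 64 * m ≤ d := by omega
  -- the excess
  have hY : m * (F * (a * s + s)) ≤ 2 * W * (P * P) := by
    calc m * (F * (a * s + s)) = m * ((a + 1) * (F * s)) := by ring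
      _ ≤ m * ((2 * Q) * (W * P)) :=
          Nat.mul_le_mul_left _ (Nat.mul_le_mul (by omega) hFs)
      _ = 2 * W * ((m * Q) * P) := by ring
      _ = 2 * W * (P * P) := by rw [hmE]
  have b1 : 8 * (F * (DL * s)) ≤ 3 * V := by
    calc 8 * (F * (DL * s)) = 8 * (DL * (F * s)) := by ring
      _ ≤ 8 * ((N9 * (m * P)) * (W * P)) := Nat.mul_le_mul_left _ (Nat.mul_le_mul hL hFs)
      _ = (4 * (N9 * W)) * (m * 2) * (P * P) := by ring
      _ ≤ (192 * U) * (m ^ 2) * (P * P) :=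
          Nat.mul_le_mul_right _ (Nat.mul_le_mul hU9 hm2)
      _ = 3 * ((64 * m ^ 2) * (U * (P * P))) := by ring
      _ ≤ 3 * (d * (U * (P * P))) := Nat.mul_le_mul_left _ (Nat.mul_le_mul_right _ hd2)
  have b2 : 8 * (F * (d * R * s)) ≤ V := by
    calc 8 * (F * (d * R * s)) = 8 * (d * (R * (F * s))) := by ring
      _ ≤ 8 * (d * (((E + 1) * P) * (W * P))) :=
          Nat.mul_le_mul_left _ (Nat.mul_le_mul_left _ (Nat.mul_le_mul hR hFs))
      _ = d * ((8 * ((E + 1) * W)) * (P * P)) := by ring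
      _ ≤ d * (U * (P * P)) := Nat.mul_le_mul_left _ (Nat.mul_le_mul_right _ hU8)
  have b3 : 4096 * (F * K) ≤ V := by
    calc 4096 * (F * K) ≤ 4096 * (P * (m * P)) := by
          refine Nat.mul_le_mul_left _ (Nat.mul_le_mul hF (hK.trans ?_))
          exact Nat.mul_le_mul_right _ (by omega)
      _ = (64 * m) * (64 * (P * P)) := by ring
      _ ≤ d * (U * (P * P)) := Nat.mul_le_mul hdm (Nat.mul_le_mul_right _ hU3)
  have b4 : 448 * (F * (m * NL)) ≤ V := by
    calc 448 * (F * (m * NL)) = 448 * m * (F * NL) := by ring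
      _ ≤ 448 * m * (W3 * (P * P)) := Nat.mul_le_mul_left _ hNL
      _ = (64 * m) * ((7 * W3) * (P * P)) := by ring
      _ ≤ d * (U * (P * P)) := Nat.mul_le_mul hdm (Nat.mul_le_mul_right _ hU2)
  have b5 : 512 * (F * (m * (a * s + s))) ≤ V := by
    calc 512 * (F * (m * (a * s + s))) = 8 * 64 * (m * (F * (a * s + s))) := by ring
      _ ≤ 8 * d * (2 * W * (P * P)) :=
          Nat.mul_le_mul (Nat.mul_le_mul_left _ (by omega)) hY
      _ = d * (16 * W * (P * P)) := by ring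
      _ ≤ d * (U * (P * P)) := Nat.mul_le_mul_left _ (Nat.mul_le_mul_right _ hU1)
  have b6 : 1024 * (F * (s * S)) ≤ V := by
    calc 1024 * (F * (s * S)) = 1024 * ((F * s) * S) := by ring
      _ ≤ 1024 * ((W * P) * (m * P)) := Nat.mul_le_mul_left _ (Nat.mul_le_mul hFs hSz)
      _ = (64 * m) * ((16 * W) * (P * P)) := by ring
      _ ≤ d * (U * (P * P)) := Nat.mul_le_mul hdm (Nat.mul_le_mul_right _ hU1)
  have b7 : 16 * (F * (d * (a * s + s))) ≤ V := by
    calc 16 * (F * (d * (a * s + s))) = 8 * d * (2 * (F * (a * s + s))) := by ring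
      _ ≤ 8 * d * (m * (F * (a * s + s))) :=
          Nat.mul_le_mul_left _ (Nat.mul_le_mul_right _ hm)
      _ ≤ 8 * d * (2 * W * (P * P)) := Nat.mul_le_mul_left _ hY
      _ = d * (16 * W * (P * P)) := by ring
      _ ≤ d * (U * (P * P)) := Nat.mul_le_mul_left _ (Nat.mul_le_mul_right _ hU1)
  refine le_of_mul_le_mul_left (?_ : F * _ ≤ F * _) (Nat.factorial_pos _)
  have e1 : F * ((DL + d * R) * s + K + (m * (NL + (a * s + s)) + s * S + d * (a * s + s))) =
      F * (DL * s) + F * (d * R * s) + F * K + F * (m * NL) + F * (m * (a * s + s)) +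
        F * (s * S) + F * (d * (a * s + s)) := by ring
  rw [e1]
  calc _ ≤ V := by linarith
    _ ≤ d * d ^ E := Nat.mul_le_mul_left _ hT
    _ = d ^ (E + 1) := by ring
    _ ≤ (d + 1) ^ (E + 1) := Nat.pow_le_pow_left (by omega) _
    _ ≤ F * Nn E d := hNd

/-- Statement numU. -/
theorem numU : S_numU := by
  intro E m hE hm hEm
  have hEm1 : E + 1 ≤ m := by omega
  refine ⟨partA1 hE (by omega), fun d hd => ⟨?_, fun e he hde => partB hE hm hEm hd he hde,
    partA2 hE hm hEm1 hd, partA3 hE hm hEm1 hd⟩⟩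
  have hd2 := d_ge64 hE (by omega) hd
  nlinarith

end Pool.Agent.H36.FU
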