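import Pool.Agent.H55.FU.StmU
import Pool.Agent.H55.FE.Num

set_option autoImplicit false

/-!
# Part B of `numU` (project FU of helper55): the conditions for the passage between degrees
-/

namespace Pool.Agent.H36.FU

open Pool.Agent.W608.PR Pool.Agent.H55 Pool.Agent.H55.FU

theorem pow16 {E : ℕ} (hE : 1 ≤ E) : 16 * 2 ^ (E + 1) ≤ 64 ^ E := by
  induction E, hE using Nat.le_induction with
  | base => norm_num
  | succ E hE ih =>
    calc 16 * 2 ^ (E + 1 + 1) = 2 * (16 * 2 ^ (E + 1)) := by ring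
      _ ≤ 2 * 64 ^ E := Nat.mul_le_mul_left _ ih
      _ ≤ 64 * 64 ^ E := Nat.mul_le_mul_right _ (by norm_num)
      _ = 64 ^ (E + 1) := by ring

theorem pow7 {E : ℕ} (hE : 1 ≤ E) : 7 * 3 ^ (E + 1) ≤ 64 ^ E := by
  induction E, hE using Nat.le_induction with
  | base => norm_num
  | succ E hE ih =>
    calc 7 * 3 ^ (E + 1 + 1) = 3 * (7 * 3 ^ (E + 1)) := by ring
      _ ≤ 3 * 64 ^ E := Nat.mul_le_mul_left _ ih
      _ ≤ 64 * 64 ^ E := Nat.mul_le_mul_right _ (by norm_num)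
      _ = 64 ^ (E + 1) := by ring

theorem d_ge64 {E m d : ℕ} (hE : 1 ≤ E) (hm : 1 ≤ m) (hd : 64 ^ E * m ^ (2 * E + 2) ≤ d ^ E) :
    64 * m ^ 2 ≤ d := by
  by_contra hcon
  push Not at hcon
  have h1 : d ^ E < (64 * m ^ 2) ^ E := Nat.pow_lt_pow_left hcon (by omega)
  have h2 : (64 * m ^ 2) ^ E ≤ 64 ^ E * m ^ (2 * E + 2) := by
    rw [mul_pow, ← pow_mul]
    exact Nat.mul_le_mul_left _ (Nat.pow_le_pow_right hm (by omega))
  omega

theorem near {E m d e : ℕ} (hm : 1 ≤ m) (hEm : E ≤ m) (h1 : 64 * m ^ 2 ≤ d) (he : d ≤ e + m) :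
    63 * d ^ E ≤ 64 * (e + 1) ^ E := by
  have hd0 : (0 : ℝ) < d := by
    have : 0 < d := by nlinarith
    exact_mod_cast this
  have h2 : (64 : ℝ) * m ^ 2 ≤ d := by exact_mod_cast h1
  have h3 : (d : ℝ) ≤ e + m := by exact_mod_cast he
  have hm1 : (1 : ℝ) ≤ m := by exact_mod_cast hm
  have hEm' : (E : ℝ) ≤ m := by exact_mod_cast hEm
  have hE0 : (0 : ℝ) ≤ E := Nat.cast_nonneg E
  have hq : (m : ℝ) / d ≤ 1 / 64 := by
    rw [div_le_div_iff₀ hd0 (by norm_num)]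
    nlinarith
  have hq0 : (0 : ℝ) ≤ (m : ℝ) / d := by positivity
  have key : (63 : ℝ) / 64 ≤ (1 + -((m : ℝ) / d)) ^ E := by
    have h4 := one_add_mul_le_pow (a := -((m : ℝ) / d)) (by linarith) E
    have h5 : (E : ℝ) * ((m : ℝ) / d) ≤ 1 / 64 := by
      rw [mul_div_assoc', div_le_div_iff₀ hd0 (by norm_num)]
      nlinarith
    linarith
  have t : (d : ℝ) * (1 + -((m : ℝ) / d)) ≤ (e : ℝ) + 1 := by
    have h5 : (d : ℝ) * (1 + -((m : ℝ) / d)) = d - m := by
      field_simp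
      ring
    linarith
  have h6 : (d : ℝ) ^ E * (63 / 64) ≤ ((e : ℝ) + 1) ^ E := by
    calc (d : ℝ) ^ E * (63 / 64) ≤ (d : ℝ) ^ E * (1 + -((m : ℝ) / d)) ^ E :=
          mul_le_mul_of_nonneg_left key (by positivity)
      _ = ((d : ℝ) * (1 + -((m : ℝ) / d))) ^ E := by rw [mul_pow]
      _ ≤ ((e : ℝ) + 1) ^ E := pow_le_pow_left₀ (by
          apply mul_nonneg hd0.le
          linarith) t E
  have h7 : 63 * (d : ℝ) ^ E ≤ 64 * ((e : ℝ) + 1) ^ E := by linarith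
  exact_mod_cast h7

/-- As `FE.stepN`, with a sharper condition. -/
theorem stepU {E m e Z : ℕ} (hm : 1 ≤ m) (hEm : E ≤ m) (he : 2 * m ≤ e + 3)
    (hZ : 4 * (m * Z) ≤ (E + 1) * Nn E e) :
    (m - 1) * Nn E (e + 1) + (m + E) * Z ≤ (m + E) * Nn E e := by
  have h1 := Nn_ratio E e
  obtain ⟨k, rfl⟩ : ∃ k, m = k + 1 := ⟨m - 1, by omega⟩
  rw [Nat.add_sub_cancel]
  generalize Nn E e = N at *
  generalize Nn E (e + 1) = N' at *
  obtain ⟨f, hf1, hf2⟩ : ∃ f, e + 1 = k + f ∧ k ≤ f := ⟨e + 1 - k, by omega, by omega⟩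
  refine le_of_mul_le_mul_left (?_ : (e + 1) * _ ≤ (e + 1) * _) (by omega)
  have h2 : (e + 1) * ((k + 1 + E) * Z) ≤ (E + 1) * f * N := by
    calc (e + 1) * ((k + 1 + E) * Z) ≤ (2 * f) * (2 * (k + 1) * Z) :=
          Nat.mul_le_mul (by omega) (Nat.mul_le_mul_right _ (by omega))
      _ = f * (4 * ((k + 1) * Z)) := by ring
      _ ≤ f * ((E + 1) * N) := Nat.mul_le_mul_left _ hZ
      _ = (E + 1) * f * N := by ring
  calc (e + 1) * (k * N' + (k + 1 + E) * Z) = k * (N' * (e + 1)) + (e + 1) * ((k + 1 + E) * Z) := by ring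
    _ = k * (N * (e + E + 2)) + (e + 1) * ((k + 1 + E) * Z) := by rw [h1]
    _ ≤ k * (N * (e + E + 2)) + (E + 1) * f * N := Nat.add_le_add_left h2 _
    _ = (e + 1) * ((k + 1 + E) * N) := by
        rw [show e + E + 2 = (e + 1) + (E + 1) by ring, hf1]
        ring

theorem fact_sz {E m : ℕ} (hEm : E ≤ m) :
    (E + 1).factorial * sz E m ≤ 2 ^ (E + 1) * m ^ (E + 1) := by
  unfold sz
  rw [← Nat.descFactorial_eq_factorial_mul_choose, ← mul_pow]
  exact (Nat.descFactorial_le_pow _ _).trans (Nat.pow_le_pow_left (by omega) _)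

theorem fact_Nn {E m : ℕ} (hE : 1 ≤ E) (hEm : E + 1 ≤ m) :
    (E + 1).factorial * Nn E (2 * (E + 1) * m + m) ≤
      3 ^ (E + 1) * (m ^ (E + 1) * m ^ (E + 1)) := by
  unfold Nn
  rw [← Nat.descFactorial_eq_factorial_mul_choose, ← mul_pow, ← mul_pow]
  refine (Nat.descFactorial_le_pow _ _).trans (Nat.pow_le_pow_left ?_ _)
  have h1 : 2 * (E + 1) * m + m + E + 1 ≤ (2 * (E + 1) + 2) * m := by nlinarith
  have h2 : (2 * (E + 1) + 2) * m ≤ (3 * m) * m := Nat.mul_le_mul_right _ (by omega)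
  calc _ ≤ _ := h1.trans h2
    _ = _ := by ring

theorem aa_le {E m : ℕ} (hE : 1 ≤ E) (hm : 1 ≤ m) : aa E m ≤ m ^ E := by
  obtain ⟨k, rfl⟩ : ∃ k, E = k + 1 := ⟨E - 1, by omega⟩
  have h := sz_le_pow k m
  unfold sz at h
  unfold aa
  rw [show m - 1 + (k + 1) = m + k by omega]
  exact h

theorem aa_succ {E m : ℕ} (hm : 1 ≤ m) : aa (E + 1) m = sz E m := by
  unfold aa sz
  rw [show m - 1 + (E + 1) = m + E by omega]

/-- The main estimate. -/
theorem mainB {E m D : ℕ} (hE : 1 ≤ E) (hEm : E + 1 ≤ m) (hD : 63 * m ^ 2 ≤ D) :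
    256 * (m * ((E + 1).factorial * (Rg E m (FE.Kc E m) * sz E m + FE.Kc E m +
      Xg E m (cA E m) (cB E m) (2 * (E + 1) * m + m) D))) ≤
      126 * (D * (64 ^ E * (m ^ (E + 1) * m ^ (E + 1)))) := by
  have hm : 1 ≤ m := by omega
  have hm2 : m ≤ m ^ 2 := by nlinarith
  have hDm : 63 * m ≤ D := (Nat.mul_le_mul_left _ hm2).trans hD
  have hU1 := pow16 hE
  have hU2 := pow7 hE
  have hU3 : 64 ≤ 64 ^ E := by
    calc 64 = 64 ^ 1 := (pow_one _).symm
      _ ≤ 64 ^ E := Nat.pow_le_pow_right (by norm_num) hE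
  have hFs := fact_sz (E := E) (m := m) (by omega)
  have hNL := fact_Nn hE hEm
  have haa := aa_le hE hm
  have hSz := Sz_le_pow E m
  have hK := FE.Kc_le hE hm
  have hR : Rg E m (FE.Kc E m) ≤ (E + 1) * m ^ (E + 1) := FE.Rc_le hE hm
  have hF : (E + 1).factorial ≤ m ^ (E + 1) :=
    (Nat.factorial_le_pow (E + 1)).trans (Nat.pow_le_pow_left hEm _)
  have hmE : m * m ^ E = m ^ (E + 1) := by ring
  have hmE2 : m ^ (E + 2) = m * m ^ (E + 1) := by ring
  have hmE1 : 1 ≤ m ^ E := Nat.one_le_pow _ _ hm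
  have hcB : cB E m = sz E m * Sz E m := by
    unfold cB
    rw [aa_succ hm]
  rw [hmE2] at hSz
  unfold Xg Yg cA
  rw [hcB]
  set F := (E + 1).factorial
  set U := 64 ^ E
  set W := 2 ^ (E + 1)
  set W3 := 3 ^ (E + 1)
  set P := m ^ (E + 1) with hP
  set Q := m ^ E
  set s := sz E m
  set K := FE.Kc E m
  set R := Rg E m K
  set a := aa E m
  set S := Sz E m
  set NL := Nn E (2 * (E + 1) * m + m)
  set V := D * (U * (P * P)) with hV
  -- the excess
  have hY : m * (F * (a * s + s)) ≤ 2 * W * (P * P) := by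
    calc m * (F * (a * s + s)) = m * ((a + 1) * (F * s)) := by ring
      _ ≤ m * ((2 * Q) * (W * P)) :=
          Nat.mul_le_mul_left _ (Nat.mul_le_mul (by omega) hFs)
      _ = 2 * W * ((m * Q) * P) := by ring
      _ = 2 * W * (P * P) := by rw [hmE]
  have b1 : 8 * (m * (F * (D * (a * s + s)))) ≤ V := by
    calc 8 * (m * (F * (D * (a * s + s)))) = 8 * D * (m * (F * (a * s + s))) := by ring
      _ ≤ 8 * D * (2 * W * (P * P)) := Nat.mul_le_mul_left _ hY
      _ = D * (16 * W * (P * P)) := by ring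
      _ ≤ D * (U * (P * P)) := Nat.mul_le_mul_left _ (Nat.mul_le_mul_right _ hU1)
  have b2 : 504 * (m * (F * (m * (a * s + s)))) ≤ V := by
    calc 504 * (m * (F * (m * (a * s + s)))) = 8 * (63 * m) * (m * (F * (a * s + s))) := by ring
      _ ≤ 8 * D * (2 * W * (P * P)) :=
          Nat.mul_le_mul (Nat.mul_le_mul_left _ hDm) hY
      _ = D * (16 * W * (P * P)) := by ring
      _ ≤ D * (U * (P * P)) := Nat.mul_le_mul_left _ (Nat.mul_le_mul_right _ hU1)
  have b3 : 1008 * (m * (F * (R * s))) ≤ V := by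
    calc 1008 * (m * (F * (R * s))) = 1008 * m * (R * (F * s)) := by ring
      _ ≤ 1008 * m * ((m * P) * (W * P)) := by
          refine Nat.mul_le_mul_left _ (Nat.mul_le_mul (hR.trans ?_) hFs)
          exact Nat.mul_le_mul_right _ hEm
      _ = (63 * m ^ 2) * ((16 * W) * (P * P)) := by ring
      _ ≤ D * (U * (P * P)) := Nat.mul_le_mul hD (Nat.mul_le_mul_right _ hU1)
  have b4 : 4032 * (m * (F * K)) ≤ V := by
    calc 4032 * (m * (F * K)) ≤ 4032 * (m * (P * (m * P))) := by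
          refine Nat.mul_le_mul_left _ (Nat.mul_le_mul_left _ (Nat.mul_le_mul hF (hK.trans ?_)))
          exact Nat.mul_le_mul_right _ (by omega)
      _ = (63 * m ^ 2) * (64 * (P * P)) := by ring
      _ ≤ D * (U * (P * P)) := Nat.mul_le_mul hD (Nat.mul_le_mul_right _ hU3)
  have b5 : 441 * (m * (F * (m * NL))) ≤ V := by
    calc 441 * (m * (F * (m * NL))) = 441 * m ^ 2 * (F * NL) := by ring
      _ ≤ 441 * m ^ 2 * (W3 * (P * P)) := Nat.mul_le_mul_left _ hNL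
      _ = (63 * m ^ 2) * ((7 * W3) * (P * P)) := by ring
      _ ≤ D * (U * (P * P)) := Nat.mul_le_mul hD (Nat.mul_le_mul_right _ hU2)
  have b6 : 1008 * (m * (F * (s * S))) ≤ V := by
    calc 1008 * (m * (F * (s * S))) = 1008 * m * ((F * s) * S) := by ring
      _ ≤ 1008 * m * ((W * P) * (m * P)) :=
          Nat.mul_le_mul_left _ (Nat.mul_le_mul hFs hSz)
      _ = (63 * m ^ 2) * ((16 * W) * (P * P)) := by ring
      _ ≤ D * (U * (P * P)) := Nat.mul_le_mul hD (Nat.mul_le_mul_right _ hU1)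
  have e1 : m * (F * (R * s + K + (m * (NL + (a * s + s)) + s * S + D * (a * s + s)))) =
      m * (F * (R * s)) + m * (F * K) + m * (F * (m * NL)) + m * (F * (m * (a * s + s))) +
        m * (F * (s * S)) + m * (F * (D * (a * s + s))) := by ring
  rw [e1]
  linarith

/-- Part B of `numU`. -/
theorem partB {E m d e : ℕ} (hE : 1 ≤ E) (hm : 2 ≤ m) (hEm : E = 1 ∨ E + 3 ≤ m)
    (hd : 64 ^ E * m ^ (2 * E + 2) ≤ d ^ E) (he : e < d) (hde : d ≤ e + m) :
    Cndg E m (FE.Kc E m) (cA E m) (cB E m) (2 * (E + 1) * m + m) e := by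
  have hEm1 : E + 1 ≤ m := by omega
  have hd2 := d_ge64 hE (by omega) hd
  have hm2 : m * 2 ≤ m ^ 2 := by nlinarith
  have hD : 63 * m ^ 2 ≤ e + 1 := by omega
  have h1 := mainB (D := e + 1) hE hEm1 hD
  have h2 := near (E := E) (by omega) (by omega) hd2 hde
  have h3 := Nn_ge_pow E e
  have hF0 : 0 < (E + 1).factorial := Nat.factorial_pos _
  have hZ : 4 * (m * (Rg E m (FE.Kc E m) * sz E m + FE.Kc E m +
      Xg E m (cA E m) (cB E m) (2 * (E + 1) * m + m) (e + 1))) ≤ (E + 1) * Nn E e := by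
    set Z := Rg E m (FE.Kc E m) * sz E m + FE.Kc E m +
      Xg E m (cA E m) (cB E m) (2 * (E + 1) * m + m) (e + 1)
    set F := (E + 1).factorial
    set U := 64 ^ E * (m ^ (E + 1) * m ^ (E + 1)) with hU
    have h4 : U ≤ d ^ E := by
      rw [hU, ← pow_add, show E + 1 + (E + 1) = 2 * E + 2 by ring]
      exact hd
    refine le_of_mul_le_mul_left (?_ : 64 * F * _ ≤ 64 * F * _) (by positivity)
    calc 64 * F * (4 * (m * Z)) = 256 * (m * (F * Z)) := by ring
      _ ≤ 126 * ((e + 1) * U) := h1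
      _ = 2 * (e + 1) * (63 * U) := by ring
      _ ≤ (E + 1) * (e + 1) * (64 * (e + 1) ^ E) :=
          Nat.mul_le_mul (Nat.mul_le_mul_right _ (by omega))
            ((Nat.mul_le_mul_left _ h4).trans h2)
      _ = 64 * (E + 1) * (e + 1) ^ (E + 1) := by ring
      _ ≤ 64 * (E + 1) * (F * Nn E e) := Nat.mul_le_mul_left _ h3
      _ = 64 * F * ((E + 1) * Nn E e) := by ring
  refine ⟨stepU (by omega) (by omega) (by omega) hZ, ?_, ?_⟩
  · have h4 : 4 * (m * (Rg E m (FE.Kc E m) * sz E m)) ≤ (E + 1) * Nn E e := by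
      refine le_trans ?_ hZ
      exact Nat.mul_le_mul_left _ (Nat.mul_le_mul_left _ (by omega))
    have h5 : Nn E e ≤ Nn E (e + 1) := Nn_mono E (Nat.le_succ e)
    generalize Rg E m (FE.Kc E m) * sz E m = R at h4 ⊢
    have h6 : (m + E + 1) * R ≤ m * Nn E (e + 1) := by
      calc (m + E + 1) * R ≤ 2 * m * R := Nat.mul_le_mul_right _ (by omega)
        _ ≤ 4 * (m * R) := by nlinarith
        _ ≤ (E + 1) * Nn E e := h4
        _ ≤ m * Nn E (e + 1) := Nat.mul_le_mul hEm1 h5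
    calc (m + E + 1) * R + m * Nn E (e + 1) ≤ m * Nn E (e + 1) + m * Nn E (e + 1) :=
          Nat.add_le_add_right h6 _
      _ = (2 * m) * Nn E (e + 1) := by ring
      _ ≤ (e + 2) * Nn E (e + 1) := Nat.mul_le_mul_right _ (by omega)
  · have h4 : 2 * (E + 1) * m + m ≤ 3 * m ^ 2 := by nlinarith
    omega

end Pool.Agent.H36.FU
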