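import Pool.Agent.H36.FU.NumVA

set_option autoImplicit false

/-!
# The fifth numerical statement `numV` (project FU of helper55): the conditions
-/

namespace Pool.Agent.H36.FU.V

open Pool.Agent.W608.PR Pool.Agent.H55 Pool.Agent.H55.FU Pool.Agent.H36.FU

/-- `(E + 1) s = (m + E) a` -/
theorem sz_aa {E m : ℕ} (hm : 1 ≤ m) : (E + 1) * sz E m = (m + E) * aa E m := by
  have h := Nat.add_one_mul_choose_eq (m - 1 + E) E
  unfold sz aa
  rw [show m - 1 + E + 1 = m + E by omega] at h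
  rw [h, mul_comm]

theorem fact_szM {E m : ℕ} : (E + 1).factorial * sz E m ≤ (m + E + 1) ^ (E + 1) := by
  unfold sz
  rw [← Nat.descFactorial_eq_factorial_mul_choose]
  exact (Nat.descFactorial_le_pow _ _).trans (Nat.pow_le_pow_left (by omega) _)

theorem fact_NnM {E L : ℕ} : (E + 1).factorial * Nn E L ≤ (L + E + 2) ^ (E + 1) := by
  unfold Nn
  rw [← Nat.descFactorial_eq_factorial_mul_choose]
  exact (Nat.descFactorial_le_pow _ _).trans (Nat.pow_le_pow_left (by omega) _)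

theorem fact_dmM {E L : ℕ} :
    (E + 1 + 1) * (E + 1).factorial * dm E L ≤ (L + E + 2) ^ (E + 1 + 1) := by
  rw [← Nat.factorial_succ]
  unfold dm
  rw [show E + 1 + 1 = E + 2 by ring, ← Nat.descFactorial_eq_factorial_mul_choose]
  exact Nat.descFactorial_le_pow _ _

/-- The relations between the numbers. -/
structure Rel (E m : ℕ) : Prop where
  ma : m * aa E m ≤ (E + 1) * sz E m
  Ma : (m + E + 1) * aa E m ≤ 2 * ((E + 1) * sz E m)
  as : aa E m ≤ sz E m
  a1 : 1 ≤ aa E m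
  s1 : 1 ≤ sz E m
  Fs : (E + 1).factorial * sz E m ≤ (m + E + 1) ^ (E + 1)
  Sz : (E + 1) * Sz E m ≤ (m + E + 1) * sz E m
  R : Rg E m (kA E m) ≤ 3 * (aa E m * sz E m)
  sR : sz E m ≤ Rg E m (kA E m)
  Y : aa E m * sz E m + sz E m ≤ 2 * (aa E m * sz E m)
  YR : aa E m * sz E m + sz E m ≤ Rg E m (kA E m)
  KR : kA E m ≤ Rg E m (kA E m)
  cB : cB E m = sz E m * Pool.Agent.W608.PR.Sz E m

theorem rel {E m : ℕ} (hE : 7 ≤ E) (hEm : E + 3 ≤ m) : Rel E m := by
  have h1 := sz_aa (E := E) (m := m) (by omega)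
  have ha : 1 ≤ aa E m := Nat.choose_pos (by omega)
  have hs : 1 ≤ sz E m := sz_pos E (by omega)
  have h2 : m * aa E m ≤ (E + 1) * sz E m := by
    rw [h1]
    exact Nat.mul_le_mul_right _ (by omega)
  have h3 : aa E m ≤ sz E m := by
    have h4 : (E + 1) * aa E m ≤ (E + 1) * sz E m := (Nat.mul_le_mul_right _ (by omega)).trans h2
    exact Nat.le_of_mul_le_mul_left h4 (by omega)
  have h5 : sz E m ≤ aa E m * sz E m := Nat.le_mul_of_pos_left _ ha
  refine ⟨h2, ?_, h3, ha, hs, fact_szM, ?_, ?_, ?_, ?_, ?_, ?_, ?_⟩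
  · rw [h1]
    calc (m + E + 1) * aa E m ≤ (2 * (m + E)) * aa E m := Nat.mul_le_mul_right _ (by omega)
      _ = _ := by ring
  · have h6 := Sz_ratio E m
    rw [← h6]
    exact Nat.mul_le_mul_right _ (by omega)
  · unfold Rg kA
    omega
  · unfold Rg
    omega
  · omega
  · unfold Rg kA
    omega
  · unfold Rg
    omega
  · unfold FU.cB
    rw [aa_succ (by omega)]

/-- Part A1. -/
theorem vA1 {E m L0 : ℕ} (hE : 7 ≤ E) (hEm : E + 3 ≤ m)
    (hL1 : 3 * (m + E + 1) ^ 2 ≤ (E + 1) * L0) : 2 * kA E m ≤ Nn E L0 := by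
  have r := rel hE hEm
  have h1 : 2 * kA E m ≤ 4 * (sz E m) ^ 2 := by
    unfold kA
    have h2 : aa E m * sz E m ≤ sz E m * sz E m := Nat.mul_le_mul_right _ r.as
    have h3 : 1 ≤ sz E m * sz E m := Nat.mul_pos r.s1 r.s1
    nlinarith
  have h2 := fk (k := E + 1) (by omega)
  have h3 := Nn_ge_pow E L0
  have h4 := Nat.pow_le_pow_left hL1 (E + 1)
  have h5 := r.Fs
  set k := E + 1 with hk
  set M := m + E + 1 with hM
  set F := k.factorial
  have hF0 : 0 < F := Nat.factorial_pos _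
  have hk0 : 0 < k ^ k := Nat.pow_pos (by omega)
  refine h1.trans ?_
  have hpos : 0 < k ^ k * (F * F) := by positivity
  refine le_of_mul_le_mul_left (?_ : (k ^ k * (F * F)) * _ ≤ (k ^ k * (F * F)) * _) hpos
  calc (k ^ k * (F * F)) * (4 * sz E m ^ 2) = (4 * k ^ k) * ((F * sz E m) * (F * sz E m)) := by ring
    _ ≤ (3 ^ k * F) * (M ^ k * M ^ k) := Nat.mul_le_mul h2 (Nat.mul_le_mul h5 h5)
    _ = F * (3 * M ^ 2) ^ k := by
        rw [mul_pow, ← pow_mul M 2 k, two_mul, pow_add]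
        ring
    _ ≤ F * (k * L0) ^ k := Nat.mul_le_mul_left _ h4
    _ = F * (k ^ k * L0 ^ k) := by rw [mul_pow]
    _ ≤ F * (k ^ k * (F * Nn E L0)) := by
        refine Nat.mul_le_mul_left _ (Nat.mul_le_mul_left _ (le_trans ?_ h3))
        exact Nat.pow_le_pow_left (by omega) _
    _ = (k ^ k * (F * F)) * Nn E L0 := by ring

theorem d400 {E m d : ℕ} (hE : 7 ≤ E) (hEm : E + 3 ≤ m)
    (hd : 1024 * m * (E + 2 + m) ^ 2 ≤ (E + 2) ^ 2 * d) :
    400 * (m + E + 1) ^ 3 ≤ (E + 1) ^ 2 * d := by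
  have h1 : 512 * (m + E + 1) * (m + E + 1) ^ 2 ≤ (E + 2) ^ 2 * d := by
    refine le_trans ?_ hd
    refine Nat.mul_le_mul (by omega) (Nat.pow_le_pow_left (by omega) 2)
  have h2 : 64 * (E + 2) ^ 2 ≤ 81 * (E + 1) ^ 2 := by nlinarith
  have h3 : 64 * ((E + 2) ^ 2 * d) ≤ 81 * ((E + 1) ^ 2 * d) := by
    calc 64 * ((E + 2) ^ 2 * d) = (64 * (E + 2) ^ 2) * d := by ring
      _ ≤ (81 * (E + 1) ^ 2) * d := Nat.mul_le_mul_right _ h2
      _ = _ := by ring
  have h5 : 512 * (m + E + 1) * (m + E + 1) ^ 2 = 512 * (m + E + 1) ^ 3 := by ring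
  rw [h5] at h1
  generalize (m + E + 1) ^ 3 = T at *
  generalize (E + 2) ^ 2 * d = A at *
  generalize (E + 1) ^ 2 * d = B at *
  omega

theorem lam {E m L0 : ℕ} (hE : 7 ≤ E) (hEm : E + 3 ≤ m)
    (hL2 : (E + 1) * L0 ≤ 4 * (m + E + 1) ^ 2) :
    (E + 1) * (L0 + m + E + 2) ≤ 5 * (m + E + 1) ^ 2 := by
  have h1 : (E + 1) * (m + E + 2) ≤ (m + E + 1) ^ 2 := by nlinarith
  calc (E + 1) * (L0 + m + E + 2) = (E + 1) * L0 + (E + 1) * (m + E + 2) := by ring
    _ ≤ 4 * (m + E + 1) ^ 2 + (m + E + 1) ^ 2 := Nat.add_le_add hL2 h1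
    _ = _ := by ring

/-- Part B. -/
theorem vB {E m L0 D : ℕ} (hE : 7 ≤ E) (hEm : E + 3 ≤ m)
    (hL2 : (E + 1) * L0 ≤ 4 * (m + E + 1) ^ 2)
    (hD : 399 * (m + E + 1) ^ 3 ≤ (E + 1) ^ 2 * D) (e : ℕ) (he : e + 1 = D) :
    4 * (m * (Rg E m (kA E m) * sz E m + kA E m +
      Xg E m (cA E m) (cB E m) (L0 + m) D)) ≤ (E + 1) * Nn E e := by
  have r := rel hE hEm
  have hΛ := lam hE hEm hL2
  have hb1 := beta1 (k := E + 1) (by omega) hD
  have hb2 := beta2 hE (by omega) hD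
  have hb3 := beta3 (k := E + 1) (by omega) (by omega) hΛ hD
  have hN := Nn_ge_pow E e
  rw [he] at hN
  have hNL : (E + 1).factorial * Nn E (L0 + m) ≤ (L0 + m + E + 2) ^ (E + 1) := fact_NnM
  obtain ⟨r1, _, r3, r4, r5, r6, r7, r8, r9, r10, r11, r12, r13⟩ := r
  unfold Xg Yg cA
  rw [r13]
  have hmM : m ≤ m + E + 1 := by omega
  have hM2 : (m + E + 1) ^ 2 ≤ (E + 1) ^ 2 * D := by
    refine le_trans ?_ hD
    have : (m + E + 1) ^ 2 ≤ (m + E + 1) ^ 3 := Nat.pow_le_pow_right (by omega) (by norm_num)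
    omega
  have hmD : m ≤ D := by
    by_contra hcon
    push Not at hcon
    have h1 : (E + 1) ^ 2 * D ≤ (m + E + 1) ^ 2 * (m + E + 1) :=
      Nat.mul_le_mul (Nat.pow_le_pow_left (by omega) 2) (by omega)
    have h2 : (m + E + 1) ^ 2 * (m + E + 1) = (m + E + 1) ^ 3 := by ring
    have h3 : 0 < (m + E + 1) ^ 3 := by positivity
    omega
  set k := E + 1 with hk
  set M := m + E + 1 with hM
  set F := k.factorial
  set a := aa E m
  set s := sz E m
  set R := Rg E m (kA E m)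
  set S := Pool.Agent.W608.PR.Sz E m
  set NL := Nn E (L0 + m)
  set N := Nn E e
  set K := kA E m
  have hF0 : 0 < F := Nat.factorial_pos _
  have hk0 : 0 < k := by omega
  -- the three estimates
  have c1 : 100 * s ^ 3 ≤ N := by
    refine le_of_mul_le_mul_left (?_ : F ^ 3 * _ ≤ F ^ 3 * _) (by positivity)
    calc F ^ 3 * (100 * s ^ 3) = 100 * (F * s) ^ 3 := by ring
      _ ≤ 100 * (M ^ k) ^ 3 := Nat.mul_le_mul_left _ (Nat.pow_le_pow_left r6 3)
      _ ≤ F ^ 2 * D ^ k := hb1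
      _ ≤ F ^ 2 * (F * N) := Nat.mul_le_mul_left _ hN
      _ = F ^ 3 * N := by ring
  have c2 : 100 * (D * s ^ 2) ≤ N := by
    refine le_of_mul_le_mul_left (?_ : F ^ 2 * _ ≤ F ^ 2 * _) (by positivity)
    calc F ^ 2 * (100 * (D * s ^ 2)) = 100 * D * (F * s) ^ 2 := by ring
      _ ≤ 100 * D * (M ^ k) ^ 2 := Nat.mul_le_mul_left _ (Nat.pow_le_pow_left r6 2)
      _ = D * (100 * (M ^ k) ^ 2) := by ring
      _ ≤ D * (F * D ^ E) := Nat.mul_le_mul_left _ hb2
      _ = F * D ^ k := by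
          rw [hk, pow_succ]
          ring
      _ ≤ F * (F * N) := Nat.mul_le_mul_left _ hN
      _ = F ^ 2 * N := by ring
  have c3 : 100 * (M ^ 2 * NL) ≤ k * N := by
    refine le_of_mul_le_mul_left (?_ : F * _ ≤ F * _) hF0
    calc F * (100 * (M ^ 2 * NL)) = 100 * M ^ 2 * (F * NL) := by ring
      _ ≤ 100 * M ^ 2 * (L0 + m + E + 2) ^ k := Nat.mul_le_mul_left _ hNL
      _ ≤ k * D ^ k := hb3
      _ ≤ k * (F * N) := Nat.mul_le_mul_left _ hN
      _ = F * (k * N) := by ring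
  have hs23 : s ^ 2 ≤ s ^ 3 := Nat.pow_le_pow_right r5 (by norm_num)
  -- the terms
  have t1 : 4 * (m * (R * s)) ≤ 12 * (k * s ^ 3) := by
    calc 4 * (m * (R * s)) ≤ 4 * (m * ((3 * (a * s)) * s)) :=
          Nat.mul_le_mul_left _ (Nat.mul_le_mul_left _ (Nat.mul_le_mul_right _ r8))
      _ = 12 * ((m * a) * s ^ 2) := by ring
      _ ≤ 12 * ((k * s) * s ^ 2) := Nat.mul_le_mul_left _ (Nat.mul_le_mul_right _ r1)
      _ = 12 * (k * s ^ 3) := by ring
  have t2 : 4 * (m * K) ≤ 12 * (k * s ^ 3) := by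
    refine le_trans ?_ t1
    refine Nat.mul_le_mul_left _ (Nat.mul_le_mul_left _ ?_)
    exact r12.trans (Nat.le_mul_of_pos_right _ r5)
  have t3 : 4 * (m * (m * NL)) ≤ 4 * (M ^ 2 * NL) := by
    calc 4 * (m * (m * NL)) = 4 * ((m * m) * NL) := by ring
      _ ≤ 4 * ((M * M) * NL) :=
          Nat.mul_le_mul_left _ (Nat.mul_le_mul_right _ (Nat.mul_le_mul hmM hmM))
      _ = _ := by ring
  have t6 : 4 * (m * (D * (a * s + s))) ≤ 8 * (k * (D * s ^ 2)) := by
    calc 4 * (m * (D * (a * s + s))) ≤ 4 * (m * (D * (2 * (a * s)))) :=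
          Nat.mul_le_mul_left _ (Nat.mul_le_mul_left _ (Nat.mul_le_mul_left _ r10))
      _ = 8 * ((m * a) * (D * s)) := by ring
      _ ≤ 8 * ((k * s) * (D * s)) := Nat.mul_le_mul_left _ (Nat.mul_le_mul_right _ r1)
      _ = 8 * (k * (D * s ^ 2)) := by ring
  have t4 : 4 * (m * (m * (a * s + s))) ≤ 8 * (k * (D * s ^ 2)) := by
    refine le_trans ?_ t6
    exact Nat.mul_le_mul_left _ (Nat.mul_le_mul_left _ (Nat.mul_le_mul_right _ hmD))
  have t5 : 4 * (m * (s * S)) ≤ 4 * (k * (D * s ^ 2)) := by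
    refine le_of_mul_le_mul_left (?_ : k * _ ≤ k * _) hk0
    calc k * (4 * (m * (s * S))) = 4 * (m * s * (k * S)) := by ring
      _ ≤ 4 * (M * s * (M * s)) :=
          Nat.mul_le_mul_left _ (Nat.mul_le_mul (Nat.mul_le_mul_right _ hmM) r7)
      _ = 4 * (M ^ 2 * s ^ 2) := by ring
      _ ≤ 4 * ((k ^ 2 * D) * s ^ 2) := Nat.mul_le_mul_left _ (Nat.mul_le_mul_right _ hM2)
      _ = k * (4 * (k * (D * s ^ 2))) := by ring
  have c1' : 100 * (k * s ^ 3) ≤ k * N := by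
    calc 100 * (k * s ^ 3) = k * (100 * s ^ 3) := by ring
      _ ≤ k * N := Nat.mul_le_mul_left _ c1
  have c2' : 100 * (k * (D * s ^ 2)) ≤ k * N := by
    calc 100 * (k * (D * s ^ 2)) = k * (100 * (D * s ^ 2)) := by ring
      _ ≤ k * N := Nat.mul_le_mul_left _ c2
  have e1 : 4 * (m * (R * s + K + (m * (NL + (a * s + s)) + s * S + D * (a * s + s)))) =
      4 * (m * (R * s)) + 4 * (m * K) + 4 * (m * (m * NL)) + 4 * (m * (m * (a * s + s))) +
        4 * (m * (s * S)) + 4 * (m * (D * (a * s + s))) := by ring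
  rw [e1]
  generalize k * s ^ 3 = A1 at *
  generalize k * (D * s ^ 2) = A2 at *
  generalize M ^ 2 * NL = A3 at *
  generalize k * N = A4 at *
  omega

theorem vCnd {E m L0 d e : ℕ} (hE : 7 ≤ E) (hEm : E + 3 ≤ m)
    (hL2 : (E + 1) * L0 ≤ 4 * (m + E + 1) ^ 2)
    (hd : 400 * (m + E + 1) ^ 3 ≤ (E + 1) ^ 2 * d) (hde : d ≤ e + m) :
    Cndg E m (kA E m) (cA E m) (cB E m) (L0 + m) e := by
  have hD : 399 * (m + E + 1) ^ 3 ≤ (E + 1) ^ 2 * (e + 1) := by
    have h1 : (E + 1) ^ 2 * d ≤ (E + 1) ^ 2 * (e + 1) + (E + 1) ^ 2 * m := by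
      rw [← mul_add]
      exact Nat.mul_le_mul_left _ (by omega)
    have h2 : (E + 1) ^ 2 * m ≤ (m + E + 1) ^ 3 := by
      calc (E + 1) ^ 2 * m ≤ (m + E + 1) ^ 2 * (m + E + 1) :=
            Nat.mul_le_mul (Nat.pow_le_pow_left (by omega) 2) (by omega)
        _ = _ := by ring
    omega
  have hZ := vB hE hEm hL2 hD e rfl
  have hΛ := lam hE hEm hL2
  have hDM : 399 * (m + E + 1) ^ 2 ≤ (E + 1) * (e + 1) := by
    refine le_of_mul_le_mul_left (?_ : (E + 1) * _ ≤ (E + 1) * _) (by omega)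
    calc (E + 1) * (399 * (m + E + 1) ^ 2) ≤ (m + E + 1) * (399 * (m + E + 1) ^ 2) :=
          Nat.mul_le_mul_right _ (by omega)
      _ = 399 * (m + E + 1) ^ 3 := by ring
      _ ≤ (E + 1) ^ 2 * (e + 1) := hD
      _ = (E + 1) * ((E + 1) * (e + 1)) := by ring
  have hLe : L0 + m + E + 2 ≤ e + 1 := by
    refine le_of_mul_le_mul_left (?_ : (E + 1) * _ ≤ (E + 1) * _) (by omega)
    refine hΛ.trans (le_trans ?_ hDM)
    exact Nat.mul_le_mul_right _ (by norm_num)
  have h2m : 2 * m ≤ e + 1 := by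
    refine le_of_mul_le_mul_left (?_ : (E + 1) * _ ≤ (E + 1) * _) (by omega)
    refine le_trans ?_ hDM
    nlinarith
  refine ⟨stepU (by omega) (by omega) (by omega) hZ, ?_, by omega⟩
  have h4 : 4 * (m * (Rg E m (kA E m) * sz E m)) ≤ (E + 1) * Nn E e := by
    refine le_trans ?_ hZ
    exact Nat.mul_le_mul_left _ (Nat.mul_le_mul_left _ (by omega))
  have h5 : Nn E e ≤ Nn E (e + 1) := Nn_mono E (Nat.le_succ e)
  generalize Rg E m (kA E m) * sz E m = R at h4 ⊢
  have h6 : (m + E + 1) * R ≤ m * Nn E (e + 1) := by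
    calc (m + E + 1) * R ≤ 2 * m * R := Nat.mul_le_mul_right _ (by omega)
      _ ≤ 4 * (m * R) := by nlinarith
      _ ≤ (E + 1) * Nn E e := h4
      _ ≤ m * Nn E (e + 1) := Nat.mul_le_mul (by omega) h5
  calc (m + E + 1) * R + m * Nn E (e + 1) ≤ m * Nn E (e + 1) + m * Nn E (e + 1) :=
        Nat.add_le_add_right h6 _
    _ = (2 * m) * Nn E (e + 1) := by ring
    _ ≤ (e + 2) * Nn E (e + 1) := Nat.mul_le_mul_right _ (by omega)

/-- The strong form of the last condition. -/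
theorem vQ {E m L0 d : ℕ} (hE : 7 ≤ E) (hEm : E + 3 ≤ m)
    (hM10 : (m + E + 1) ^ 2 ≤ (E + 1) ^ 2 * 10 ^ (E + 1))
    (hL2 : (E + 1) * L0 ≤ 4 * (m + E + 1) ^ 2)
    (hd : 400 * (m + E + 1) ^ 3 ≤ (E + 1) ^ 2 * d) :
    4 * ((E + 1) * (Qg E m (kA E m) (L0 + m) d * sz E m)) ≤ Nn E d := by
  have r := rel hE hEm
  have hΛ := lam hE hEm hL2
  have ha1 := alpha1 (k := E + 1) (by omega) (by omega) hM10 hΛ hd
  have ha2 := alpha2 hE hM10 hd
  have hN : d ^ (E + 1) ≤ (E + 1).factorial * Nn E d :=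
    (Nat.pow_le_pow_left (by omega) _).trans (Nn_ge_pow E d)
  have hDL : (E + 1 + 1) * (E + 1).factorial * dm E (L0 + m) ≤ (L0 + m + E + 2) ^ (E + 1 + 1) :=
    fact_dmM
  obtain ⟨_, r2, r3, r4, r5, r6, r7, r8, r9, r10, r11, r12, r13⟩ := r
  unfold Qg
  set k := E + 1 with hk
  set M := m + E + 1 with hM
  set F := k.factorial
  set a := aa E m
  set s := sz E m
  set R := Rg E m (kA E m)
  set DL := dm E (L0 + m)
  set N := Nn E d
  have hF0 : 0 < F := Nat.factorial_pos _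
  have hk0 : 0 < k := by omega
  have hM0 : 0 < M := by omega
  have u1 : 8 * (k * (DL * s)) ≤ N := by
    have hG : 0 < (k + 1) * F * F := by positivity
    refine le_of_mul_le_mul_left (?_ : ((k + 1) * F * F) * _ ≤ ((k + 1) * F * F) * _) hG
    calc ((k + 1) * F * F) * (8 * (k * (DL * s))) = 8 * k * ((F * s) * ((k + 1) * F * DL)) := by ring
      _ ≤ 8 * k * (M ^ k * (L0 + m + E + 2) ^ (k + 1)) :=
          Nat.mul_le_mul_left _ (Nat.mul_le_mul r6 hDL)
      _ ≤ (k + 1) * F * d ^ k := ha1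
      _ ≤ (k + 1) * F * (F * N) := Nat.mul_le_mul_left _ hN
      _ = ((k + 1) * F * F) * N := by ring
  have u2 : 8 * (k * (d * R * s)) ≤ N := by
    have hG : 0 < M * F ^ 3 := by positivity
    refine le_of_mul_le_mul_left (?_ : (M * F ^ 3) * _ ≤ (M * F ^ 3) * _) hG
    calc (M * F ^ 3) * (8 * (k * (d * R * s)))
        ≤ (M * F ^ 3) * (8 * (k * (d * (3 * (a * s)) * s))) := by
          refine Nat.mul_le_mul_left _ (Nat.mul_le_mul_left _ (Nat.mul_le_mul_left _ ?_))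
          exact Nat.mul_le_mul_right _ (Nat.mul_le_mul_left _ r8)
      _ = 24 * k * d * (F ^ 3 * s ^ 2) * (M * a) := by ring
      _ ≤ 24 * k * d * (F ^ 3 * s ^ 2) * (2 * (k * s)) := Nat.mul_le_mul_left _ r2
      _ = 48 * k ^ 2 * d * (F * s) ^ 3 := by ring
      _ ≤ 48 * k ^ 2 * d * (M ^ k) ^ 3 := Nat.mul_le_mul_left _ (Nat.pow_le_pow_left r6 3)
      _ = d * (48 * k ^ 2 * (M ^ k) ^ 3) := by ring
      _ ≤ d * (M * (F ^ 2 * d ^ E)) := Nat.mul_le_mul_left _ ha2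
      _ = M * F ^ 2 * d ^ k := by
          rw [hk, pow_succ d E]
          ring
      _ ≤ M * F ^ 2 * (F * N) := Nat.mul_le_mul_left _ hN
      _ = (M * F ^ 3) * N := by ring
  have e1 : 4 * (k * ((DL + d * R) * s)) = 4 * (k * (DL * s)) + 4 * (k * (d * R * s)) := by ring
  rw [e1]
  omega

/-- Statement numV. -/
theorem numV : S_numV := by
  intro E m L0 hE hEm hM10 hL1 hL2
  refine ⟨vA1 hE hEm hL1, fun d hd0 => ?_⟩
  have hd := d400 hE hEm hd0
  have hQ := vQ hE hEm hM10 hL2 hd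
  have r := rel hE hEm
  obtain ⟨r1, r2, r3, r4, r5, r6, r7, r8, r9, r10, r11, r12, r13⟩ := r
  have hNpos : 1 ≤ Nn E d := Nat.choose_pos (by omega)
  have hkd : 400 * (m + E + 1) ^ 2 ≤ (E + 1) * d := by
    refine le_of_mul_le_mul_left (?_ : (E + 1) * _ ≤ (E + 1) * _) (by omega)
    calc (E + 1) * (400 * (m + E + 1) ^ 2) ≤ (m + E + 1) * (400 * (m + E + 1) ^ 2) :=
          Nat.mul_le_mul_right _ (by omega)
      _ = 400 * (m + E + 1) ^ 3 := by ring
      _ ≤ (E + 1) ^ 2 * d := hd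
      _ = (E + 1) * ((E + 1) * d) := by ring
  have hMd : 400 * (m + E + 1) ≤ d := by
    refine le_of_mul_le_mul_left (?_ : (E + 1) * _ ≤ (E + 1) * _) (by omega)
    refine le_trans ?_ hkd
    calc (E + 1) * (400 * (m + E + 1)) ≤ (m + E + 1) * (400 * (m + E + 1)) :=
          Nat.mul_le_mul_right _ (by omega)
      _ = _ := by ring
  refine ⟨by omega, fun e _ hde => vCnd hE hEm hL2 hd hde, ?_, ?_⟩
  · have h1 := Sz_ratio E m
    have h2 := dm_up E d
    refine lt_of_mul_lt_mul_left (?_ : (E + 2) * _ < (E + 2) * _) (Nat.zero_le _)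
    rw [h2]
    set Q := Qg E m (kA E m) (L0 + m) d
    have h3 : 400 * (m * ((m + E + 1) * (Q * sz E m))) ≤ d * Nn E d := by
      calc 400 * (m * ((m + E + 1) * (Q * sz E m)))
          ≤ 400 * ((m + E + 1) * ((m + E + 1) * (Q * sz E m))) :=
            Nat.mul_le_mul_left _ (Nat.mul_le_mul_right _ (by omega))
        _ = (400 * (m + E + 1) ^ 2) * (Q * sz E m) := by ring
        _ ≤ ((E + 1) * d) * (Q * sz E m) := Nat.mul_le_mul_right _ hkd
        _ = d * ((E + 1) * (Q * sz E m)) := by ring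
        _ ≤ d * Nn E d := Nat.mul_le_mul_left _ (by omega)
    calc (E + 2) * (m * (Pool.Agent.W608.PR.Sz E m * Q))
        = m * (((E + 2) * Pool.Agent.W608.PR.Sz E m) * Q) := by ring
      _ = m * ((m + E + 1) * (Q * sz E m)) := by
          rw [h1]
          ring
      _ ≤ d * Nn E d := by omega
      _ < (d + E + 2) * Nn E d := Nat.mul_lt_mul_of_pos_right (by omega) hNpos
  · -- the last part
    have hdmL := dm_up E (L0 + m)
    unfold Xg Yg cA
    rw [r13]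
    have hQR : d * Rg E m (kA E m) ≤ Qg E m (kA E m) (L0 + m) d := by
      unfold Qg
      omega
    have hQL : dm E (L0 + m) ≤ Qg E m (kA E m) (L0 + m) d := by
      unfold Qg
      omega
    set k := E + 1 with hk
    set M := m + E + 1 with hM
    set a := aa E m
    set s := sz E m
    set R := Rg E m (kA E m)
    set S := Pool.Agent.W608.PR.Sz E m
    set NL := Nn E (L0 + m)
    set DL := dm E (L0 + m)
    set Q := Qg E m (kA E m) (L0 + m) d
    set N := Nn E d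
    set K := kA E m
    have hd1 : 1 ≤ d := by omega
    have q1 : R ≤ d * R := Nat.le_mul_of_pos_left _ hd1
    have q2 : Q ≤ Q * s := Nat.le_mul_of_pos_right _ r5
    have w1 : K ≤ Q * s := r12.trans (q1.trans (hQR.trans q2))
    have w2 : d * (a * s + s) ≤ Q * s :=
      (Nat.mul_le_mul_left _ r11).trans (hQR.trans q2)
    have w3 : m * (a * s + s) ≤ Q * s :=
      (Nat.mul_le_mul_right _ (by omega)).trans w2
    have w4 : s * S ≤ Q * s := by
      have h1 : S ≤ M * s := (Nat.le_mul_of_pos_left _ (by omega)).trans r7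
      calc s * S ≤ s * (M * s) := Nat.mul_le_mul_left _ h1
        _ ≤ s * (d * R) := Nat.mul_le_mul_left _ (Nat.mul_le_mul (by omega) r9)
        _ ≤ s * Q := Nat.mul_le_mul_left _ hQR
        _ = Q * s := by ring
    have w5 : m * NL ≤ k * (Q * s) := by
      have h1 : m * NL ≤ k * DL := by
        refine le_of_mul_le_mul_left (?_ : (E + 2) * _ ≤ (E + 2) * _) (by omega)
        calc (E + 2) * (m * NL) ≤ M * (M * NL) :=
              Nat.mul_le_mul (by omega) (Nat.mul_le_mul_right _ (by omega))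
          _ = M ^ 2 * NL := by ring
          _ ≤ (k * L0) * NL := Nat.mul_le_mul_right _ (by omega)
          _ = k * (L0 * NL) := by ring
          _ ≤ k * ((L0 + m + E + 2) * NL) :=
              Nat.mul_le_mul_left _ (Nat.mul_le_mul_right _ (by omega))
          _ = k * ((E + 2) * DL) := by rw [hdmL]
          _ = (E + 2) * (k * DL) := by ring
      exact h1.trans (Nat.mul_le_mul_left _ (hQL.trans q2))
    have e1 : Q * s + K + (m * (NL + (a * s + s)) + s * S + d * (a * s + s)) =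
        Q * s + K + m * NL + m * (a * s + s) + s * S + d * (a * s + s) := by ring
    rw [e1]
    have h8 : 8 * (Q * s) ≤ k * (Q * s) := Nat.mul_le_mul_right _ (by omega)
    omega

end Pool.Agent.H36.FU.V
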