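import Pool.Agent.H36.FU.NumUA
import Pool.Agent.H55.FU.StmV

set_option autoImplicit false

/-!
# The fifth numerical statement `numV` (project FU of helper55)
-/

namespace Pool.Agent.H36.FU.V

open Pool.Agent.W608.PR Pool.Agent.H55 Pool.Agent.H55.FU Pool.Agent.H36.FU

/-! ### Inequalities for numbers -/

theorem fk {k : ℕ} (hk : 8 ≤ k) : 4 * k ^ k ≤ 3 ^ k * k.factorial := by
  induction k, hk using Nat.le_induction with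
  | base => norm_num [Nat.factorial]
  | succ n hn ih =>
    calc 4 * (n + 1) ^ (n + 1) = 4 * (n + 1) * (n + 1) ^ n := by ring
      _ ≤ 4 * (n + 1) * (3 * n ^ n) := Nat.mul_le_mul_left _ (succ_pow_le n)
      _ = 3 * (n + 1) * (4 * n ^ n) := by ring
      _ ≤ 3 * (n + 1) * (3 ^ n * n.factorial) := Nat.mul_le_mul_left _ ih
      _ = 3 ^ (n + 1) * (n + 1).factorial := by
          rw [Nat.factorial_succ]
          ring

theorem fk2 {k : ℕ} (hk : 8 ≤ k) : 16 * (k ^ k) ^ 2 ≤ 9 ^ k * k.factorial ^ 2 := by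
  have h := Nat.pow_le_pow_left (fk hk) 2
  calc 16 * (k ^ k) ^ 2 = (4 * k ^ k) ^ 2 := by ring
    _ ≤ (3 ^ k * k.factorial) ^ 2 := h
    _ = (3 ^ 2) ^ k * k.factorial ^ 2 := by
        rw [mul_pow, ← pow_mul, ← pow_mul, mul_comm k 2]
    _ = 9 ^ k * k.factorial ^ 2 := by norm_num

/-- N1 -/
theorem n1 {E : ℕ} (hE : 7 ≤ E) : 3 * ((E + 1) ^ 2 * 90 ^ (E + 1)) ≤ 400 ^ E := by
  induction E, hE using Nat.le_induction with
  | base => norm_num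
  | succ n hn ih =>
    calc 3 * ((n + 1 + 1) ^ 2 * 90 ^ (n + 1 + 1)) ≤ 3 * ((2 * (n + 1) ^ 2) * 90 ^ (n + 1 + 1)) := by
          refine Nat.mul_le_mul_left _ (Nat.mul_le_mul_right _ ?_)
          nlinarith
      _ = 180 * (3 * ((n + 1) ^ 2 * 90 ^ (n + 1))) := by ring
      _ ≤ 180 * 400 ^ n := Nat.mul_le_mul_left _ ih
      _ ≤ 400 * 400 ^ n := Nat.mul_le_mul_right _ (by norm_num)
      _ = 400 ^ (n + 1) := by ring

theorem n2 {k : ℕ} (hk : 8 ≤ k) : 10 * k * 150 ^ k ≤ 400 ^ k := by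
  induction k, hk using Nat.le_induction with
  | base => norm_num
  | succ n hn ih =>
    calc 10 * (n + 1) * 150 ^ (n + 1) ≤ 10 * (2 * n) * 150 ^ (n + 1) :=
          Nat.mul_le_mul_right _ (by omega)
      _ = 300 * (10 * n * 150 ^ n) := by ring
      _ ≤ 300 * 400 ^ n := Nat.mul_le_mul_left _ ih
      _ ≤ 400 * 400 ^ n := Nat.mul_le_mul_right _ (by norm_num)
      _ = 400 ^ (n + 1) := by ring

theorem n3 {k : ℕ} (hk : 8 ≤ k) : 100 * k * 5 ^ k ≤ 399 ^ k := by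
  induction k, hk using Nat.le_induction with
  | base => norm_num
  | succ n hn ih =>
    calc 100 * (n + 1) * 5 ^ (n + 1) ≤ 100 * (2 * n) * 5 ^ (n + 1) :=
          Nat.mul_le_mul_right _ (by omega)
      _ = 10 * (100 * n * 5 ^ n) := by ring
      _ ≤ 10 * 399 ^ n := Nat.mul_le_mul_left _ ih
      _ ≤ 399 * 399 ^ n := Nat.mul_le_mul_right _ (by norm_num)
      _ = 399 ^ (n + 1) := by ring

theorem n4 {E : ℕ} (hE : 7 ≤ E) : 75 * (E + 1) ≤ 133 ^ E := by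
  induction E, hE using Nat.le_induction with
  | base => norm_num
  | succ n hn ih =>
    calc 75 * (n + 1 + 1) ≤ 133 * (75 * (n + 1)) := by omega
      _ ≤ 133 * 133 ^ n := Nat.mul_le_mul_left _ ih
      _ = 133 ^ (n + 1) := by ring

theorem beta1 {k M D : ℕ} (hk : 8 ≤ k) (hD : 399 * M ^ 3 ≤ k ^ 2 * D) :
    100 * (M ^ k) ^ 3 ≤ k.factorial ^ 2 * D ^ k := by
  have h1 : 399 ^ k * (M ^ k) ^ 3 ≤ (k ^ k) ^ 2 * D ^ k := by
    have h := Nat.pow_le_pow_left hD k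
    calc 399 ^ k * (M ^ k) ^ 3 = (399 * M ^ 3) ^ k := by
          rw [mul_pow, ← pow_mul, ← pow_mul, mul_comm k 3]
      _ ≤ (k ^ 2 * D) ^ k := h
      _ = (k ^ k) ^ 2 * D ^ k := by
          rw [mul_pow, ← pow_mul, ← pow_mul, mul_comm k 2]
  have h2 := fk2 hk
  have hk0 : 0 < k ^ k := Nat.pow_pos (by omega)
  have h3 : 396 ^ k ≤ 399 ^ k := Nat.pow_le_pow_left (by norm_num) k
  have h4 : (396 : ℕ) ^ k = 44 ^ k * 9 ^ k := by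
    rw [← mul_pow]
    norm_num
  have h5 : 44 ≤ 44 ^ k := by
    calc 44 = 44 ^ 1 := (pow_one _).symm
      _ ≤ 44 ^ k := Nat.pow_le_pow_right (by norm_num) (by omega)
  have hpos : 0 < 9 ^ k * (k ^ k) ^ 2 := by positivity
  refine le_of_mul_le_mul_left (?_ : (9 ^ k * (k ^ k) ^ 2) * _ ≤ (9 ^ k * (k ^ k) ^ 2) * _) hpos
  calc (9 ^ k * (k ^ k) ^ 2) * (100 * (M ^ k) ^ 3)
      ≤ (9 ^ k * (k ^ k) ^ 2) * ((16 * 44 ^ k) * (M ^ k) ^ 3) :=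
        Nat.mul_le_mul_left _ (Nat.mul_le_mul_right _ (by omega))
    _ = 16 * (k ^ k) ^ 2 * ((44 ^ k * 9 ^ k) * (M ^ k) ^ 3) := by ring
    _ ≤ (9 ^ k * k.factorial ^ 2) * (399 ^ k * (M ^ k) ^ 3) := by
        refine Nat.mul_le_mul h2 (Nat.mul_le_mul_right _ ?_)
        rw [← h4]
        exact h3
    _ ≤ (9 ^ k * k.factorial ^ 2) * ((k ^ k) ^ 2 * D ^ k) := Nat.mul_le_mul_left _ h1
    _ = (9 ^ k * (k ^ k) ^ 2) * (k.factorial ^ 2 * D ^ k) := by ring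

theorem beta2 {E M D : ℕ} (hE : 7 ≤ E) (hM : E + 1 ≤ M) (hD : 399 * M ^ 3 ≤ (E + 1) ^ 2 * D) :
    100 * (M ^ (E + 1)) ^ 2 ≤ (E + 1).factorial * D ^ E := by
  obtain ⟨j, rfl⟩ : ∃ j, E = j + 2 := ⟨E - 2, by omega⟩
  set k := j + 2 + 1 with hk
  set F := k.factorial
  have h1 : 399 ^ (j + 2) * (M ^ (j + 2)) ^ 3 ≤ (k ^ (j + 2)) ^ 2 * D ^ (j + 2) := by
    have h := Nat.pow_le_pow_left hD (j + 2)
    calc 399 ^ (j + 2) * (M ^ (j + 2)) ^ 3 = (399 * M ^ 3) ^ (j + 2) := by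
          rw [mul_pow, ← pow_mul, ← pow_mul, mul_comm (j + 2) 3]
      _ ≤ (k ^ 2 * D) ^ (j + 2) := h
      _ = (k ^ (j + 2)) ^ 2 * D ^ (j + 2) := by
          rw [mul_pow, ← pow_mul, ← pow_mul, mul_comm (j + 2) 2]
  have h2 : 4 * k ^ k ≤ 3 ^ k * F := fk (by omega)
  have h4 := n4 hE
  have hk0 : 0 < k := by omega
  have hM0 : 0 < M := by omega
  have e1 : k ^ k = k * k ^ (j + 2) := by
    rw [hk]
    ring
  have e2 : 3 ^ k = 3 * 3 ^ (j + 2) := by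
    rw [hk]
    ring
  have e3 : (399 : ℕ) ^ (j + 2) = 133 ^ (j + 2) * 3 ^ (j + 2) := by
    rw [← mul_pow]
    norm_num
  rw [e1, e2] at h2
  rw [e3] at h1
  have h5 : k ^ j ≤ M ^ j := Nat.pow_le_pow_left hM j
  have hpos : 0 < 3 * 3 ^ (j + 2) * (k ^ (j + 2)) ^ 2 := by positivity
  refine le_of_mul_le_mul_left
    (?_ : (3 * 3 ^ (j + 2) * (k ^ (j + 2)) ^ 2) * _ ≤ (3 * 3 ^ (j + 2) * (k ^ (j + 2)) ^ 2) * _) hpos
  calc (3 * 3 ^ (j + 2) * (k ^ (j + 2)) ^ 2) * (100 * (M ^ k) ^ 2)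
      = (4 * 3 ^ (j + 2) * k ^ (j + 2)) * (75 * k * k * k ^ j * (M ^ 3 * M ^ 3 * (M ^ j) ^ 2)) := by
        rw [hk]
        ring
    _ ≤ (4 * 3 ^ (j + 2) * k ^ (j + 2)) * (133 ^ (j + 2) * k * M ^ j * (M ^ 3 * M ^ 3 * (M ^ j) ^ 2)) := by
        refine Nat.mul_le_mul_left _ (Nat.mul_le_mul_right _ ?_)
        exact Nat.mul_le_mul (Nat.mul_le_mul_right _ h4) h5
    _ = (4 * (k * k ^ (j + 2))) * ((133 ^ (j + 2) * 3 ^ (j + 2)) * (M ^ (j + 2)) ^ 3) := by ring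
    _ ≤ (3 * 3 ^ (j + 2) * F) * ((k ^ (j + 2)) ^ 2 * D ^ (j + 2)) := Nat.mul_le_mul h2 h1
    _ = (3 * 3 ^ (j + 2) * (k ^ (j + 2)) ^ 2) * (F * D ^ (j + 2)) := by ring

theorem beta3 {k M D Λ : ℕ} (hk : 8 ≤ k) (hM : k ≤ M) (hΛ : k * Λ ≤ 5 * M ^ 2)
    (hD : 399 * M ^ 3 ≤ k ^ 2 * D) : 100 * M ^ 2 * Λ ^ k ≤ k * D ^ k := by
  obtain ⟨j, hj⟩ : ∃ j, k = j + 2 := ⟨k - 2, by omega⟩
  have h1 : 399 ^ k * (M ^ k) ^ 3 ≤ (k ^ k) ^ 2 * D ^ k := by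
    have h := Nat.pow_le_pow_left hD k
    calc 399 ^ k * (M ^ k) ^ 3 = (399 * M ^ 3) ^ k := by
          rw [mul_pow, ← pow_mul, ← pow_mul, mul_comm k 3]
      _ ≤ (k ^ 2 * D) ^ k := h
      _ = (k ^ k) ^ 2 * D ^ k := by
          rw [mul_pow, ← pow_mul, ← pow_mul, mul_comm k 2]
  have h2 : k ^ k * Λ ^ k ≤ 5 ^ k * (M ^ k) ^ 2 := by
    have h := Nat.pow_le_pow_left hΛ k
    calc k ^ k * Λ ^ k = (k * Λ) ^ k := (mul_pow _ _ _).symm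
      _ ≤ (5 * M ^ 2) ^ k := h
      _ = 5 ^ k * (M ^ k) ^ 2 := by
          rw [mul_pow, ← pow_mul, ← pow_mul, mul_comm k 2]
  have h3 := n3 hk
  have h5 : k ^ j ≤ M ^ j := Nat.pow_le_pow_left hM j
  have e1 : k ^ k = k ^ 2 * k ^ j := by
    calc k ^ k = k ^ (j + 2) := by rw [← hj]
      _ = k ^ 2 * k ^ j := by ring
  have e2 : M ^ k = M ^ 2 * M ^ j := by
    rw [hj]
    ring
  have hk0 : 0 < k ^ k := Nat.pow_pos (by omega)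
  have hpos : 0 < (k ^ k) ^ 2 := by positivity
  refine le_of_mul_le_mul_left (?_ : (k ^ k) ^ 2 * _ ≤ (k ^ k) ^ 2 * _) hpos
  calc (k ^ k) ^ 2 * (100 * M ^ 2 * Λ ^ k) = 100 * M ^ 2 * k ^ k * (k ^ k * Λ ^ k) := by ring
    _ ≤ 100 * M ^ 2 * k ^ k * (5 ^ k * (M ^ k) ^ 2) := Nat.mul_le_mul_left _ h2
    _ = k * M ^ 2 * k ^ j * (100 * k * 5 ^ k) * (M ^ k) ^ 2 := by
        rw [e1]
        ring
    _ ≤ k * M ^ 2 * M ^ j * 399 ^ k * (M ^ k) ^ 2 :=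
        Nat.mul_le_mul_right _ (Nat.mul_le_mul (Nat.mul_le_mul_left _ h5) h3)
    _ = k * (399 ^ k * (M ^ k) ^ 3) := by
        have e3 : (M ^ k) ^ 3 = (M ^ 2 * M ^ j) * (M ^ k) ^ 2 := by
          rw [← e2]
          ring
        rw [e3]
        ring
    _ ≤ k * ((k ^ k) ^ 2 * D ^ k) := Nat.mul_le_mul_left _ h1
    _ = (k ^ k) ^ 2 * (k * D ^ k) := by ring

theorem alpha1 {k M d Λ : ℕ} (hk : 8 ≤ k) (hM1 : 1 ≤ M) (hM : M ^ 2 ≤ k ^ 2 * 10 ^ k)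
    (hΛ : k * Λ ≤ 5 * M ^ 2) (hd : 400 * M ^ 3 ≤ k ^ 2 * d) :
    8 * k * (M ^ k * Λ ^ (k + 1)) ≤ (k + 1) * k.factorial * d ^ k := by
  set F := k.factorial
  have h1 : 400 ^ k * (M ^ k) ^ 3 ≤ (k ^ k) ^ 2 * d ^ k := by
    have h := Nat.pow_le_pow_left hd k
    calc 400 ^ k * (M ^ k) ^ 3 = (400 * M ^ 3) ^ k := by
          rw [mul_pow, ← pow_mul, ← pow_mul, mul_comm k 3]
      _ ≤ (k ^ 2 * d) ^ k := h
      _ = (k ^ k) ^ 2 * d ^ k := by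
          rw [mul_pow, ← pow_mul, ← pow_mul, mul_comm k 2]
  have h2 : k ^ (k + 1) * Λ ^ (k + 1) ≤ 5 * 5 ^ k * (M ^ 2 * (M ^ k) ^ 2) := by
    have h := Nat.pow_le_pow_left hΛ (k + 1)
    calc k ^ (k + 1) * Λ ^ (k + 1) = (k * Λ) ^ (k + 1) := (mul_pow _ _ _).symm
      _ ≤ (5 * M ^ 2) ^ (k + 1) := h
      _ = 5 * 5 ^ k * (M ^ 2 * (M ^ 2) ^ k) := by
          rw [mul_pow]
          ring
      _ = _ := by
          rw [← pow_mul M 2 k, ← pow_mul M k 2, mul_comm k 2]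
  have h3 : 4 * k ^ k ≤ 3 ^ k * F := fk hk
  have h4 := n2 hk
  have hk0 : 0 < k ^ k := Nat.pow_pos (by omega)
  have hpos : 0 < (k ^ k) ^ 2 := by positivity
  have key : 8 * k ^ k * (5 * 5 ^ k) * M ^ 2 ≤ (k + 1) * F * 400 ^ k := by
    calc 8 * k ^ k * (5 * 5 ^ k) * M ^ 2 = 2 * (4 * k ^ k) * (5 * 5 ^ k) * M ^ 2 := by ring
      _ ≤ 2 * (3 ^ k * F) * (5 * 5 ^ k) * (k ^ 2 * 10 ^ k) :=
          Nat.mul_le_mul (Nat.mul_le_mul_right _ (Nat.mul_le_mul_left _ h3)) hM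
      _ = k * F * (10 * k * (3 ^ k * 5 ^ k * 10 ^ k)) := by ring
      _ = k * F * (10 * k * 150 ^ k) := by
          rw [← mul_pow, ← mul_pow]
          norm_num
      _ ≤ (k + 1) * F * 400 ^ k :=
          Nat.mul_le_mul (Nat.mul_le_mul_right _ (by omega)) h4
  refine le_of_mul_le_mul_left (?_ : (k ^ k) ^ 2 * _ ≤ (k ^ k) ^ 2 * _) hpos
  calc (k ^ k) ^ 2 * (8 * k * (M ^ k * Λ ^ (k + 1)))
      = 8 * k ^ k * M ^ k * (k ^ (k + 1) * Λ ^ (k + 1)) := by ring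
    _ ≤ 8 * k ^ k * M ^ k * (5 * 5 ^ k * (M ^ 2 * (M ^ k) ^ 2)) := Nat.mul_le_mul_left _ h2
    _ = (8 * k ^ k * (5 * 5 ^ k) * M ^ 2) * (M ^ k) ^ 3 := by ring
    _ ≤ ((k + 1) * F * 400 ^ k) * (M ^ k) ^ 3 := Nat.mul_le_mul_right _ key
    _ = (k + 1) * F * (400 ^ k * (M ^ k) ^ 3) := by ring
    _ ≤ (k + 1) * F * ((k ^ k) ^ 2 * d ^ k) := Nat.mul_le_mul_left _ h1
    _ = (k ^ k) ^ 2 * ((k + 1) * F * d ^ k) := by ring

theorem alpha2 {E M d : ℕ} (hE : 7 ≤ E) (hM : M ^ 2 ≤ (E + 1) ^ 2 * 10 ^ (E + 1))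
    (hd : 400 * M ^ 3 ≤ (E + 1) ^ 2 * d) :
    48 * (E + 1) ^ 2 * (M ^ (E + 1)) ^ 3 ≤ M * ((E + 1).factorial ^ 2 * d ^ E) := by
  have h2 := fk2 (k := E + 1) (by omega)
  have h4 := n1 hE
  set k := E + 1 with hk
  set F := k.factorial
  have h1 : 400 ^ E * (M ^ E) ^ 3 ≤ (k ^ E) ^ 2 * d ^ E := by
    have h := Nat.pow_le_pow_left hd E
    calc 400 ^ E * (M ^ E) ^ 3 = (400 * M ^ 3) ^ E := by
          rw [mul_pow, ← pow_mul, ← pow_mul, mul_comm E 3]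
      _ ≤ (k ^ 2 * d) ^ E := h
      _ = (k ^ E) ^ 2 * d ^ E := by
          rw [mul_pow, ← pow_mul, ← pow_mul, mul_comm E 2]
  have e1 : k ^ k = k * k ^ E := by
    rw [hk]
    ring
  rw [e1] at h2
  have hk0 : 0 < k ^ E := Nat.pow_pos (by omega)
  have hpos : 0 < 9 ^ k * (k ^ E) ^ 2 := by positivity
  refine le_of_mul_le_mul_left (?_ : (9 ^ k * (k ^ E) ^ 2) * _ ≤ (9 ^ k * (k ^ E) ^ 2) * _) hpos
  calc (9 ^ k * (k ^ E) ^ 2) * (48 * k ^ 2 * (M ^ k) ^ 3)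
      = 16 * (k * k ^ E) ^ 2 * (M * (M ^ E) ^ 3) * (3 * (9 ^ k * M ^ 2)) := by
        rw [hk]
        ring
    _ ≤ 16 * (k * k ^ E) ^ 2 * (M * (M ^ E) ^ 3) * (3 * (9 ^ k * (k ^ 2 * 10 ^ k))) :=
        Nat.mul_le_mul_left _ (Nat.mul_le_mul_left _ (Nat.mul_le_mul_left _ hM))
    _ = 16 * (k * k ^ E) ^ 2 * (M * (M ^ E) ^ 3) * (3 * (k ^ 2 * 90 ^ k)) := by
        have e90 : (90 : ℕ) ^ k = 9 ^ k * 10 ^ k := by
          rw [← mul_pow]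
          norm_num
        rw [e90]
        ring
    _ ≤ (9 ^ k * F ^ 2) * (M * (M ^ E) ^ 3) * 400 ^ E :=
        Nat.mul_le_mul (Nat.mul_le_mul_right _ h2) h4
    _ = 9 ^ k * F ^ 2 * M * (400 ^ E * (M ^ E) ^ 3) := by ring
    _ ≤ 9 ^ k * F ^ 2 * M * ((k ^ E) ^ 2 * d ^ E) := Nat.mul_le_mul_left _ h1
    _ = (9 ^ k * (k ^ E) ^ 2) * (M * (F ^ 2 * d ^ E)) := by ring

end Pool.Agent.H36.FU.V
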